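import Pool.Agent.Lib.MP_8b8716_co_QR.RTab

set_option autoImplicit false

/-!
# The table of the chromatic numbers of `F ^ 2`

`unitDistanceGraph F` is the graph on `F × F` in which `p` and `q` are adjacent if and only if
`(p.1 - q.1) ^ 2 + (p.2 - q.2) ^ 2 = 1`; `unitDistanceGraph ⊤` is the unit-distance graph of the
plane over all real numbers.
-/

namespace Pool.Agent.Results.MP_8b8716_co.ChromaticTable

open Pool.Agent.MP8b8716

/-- the maximal ideal `P` is split: `s (a ^ 2 + 1) = 4 b` for some `a`, `s`, `b` with `s` not in `P`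
and `b` in `P`; if `2` is not in `P`, this says that `-1` is a square modulo `P` -/
def Split {O : Type*} [CommRing O] (P : Ideal O) : Prop :=
  ∃ a s b : O, s ∉ P ∧ b ∈ P ∧ s * (a ^ 2 + 1) = 4 * b

/-- `O` has a maximal ideal with `q` residues which is not split -/
def NonsplitPlace (O : Type*) [CommRing O] (q : ℕ) : Prop :=
  ∃ P : Ideal O, P.IsMaximal ∧ Finite (O ⧸ P) ∧ Nat.card (O ⧸ P) = q ∧ ¬ Split P

/-- `a ^ 2 + 1 = 4 b` is solvable in `O` -/
def Solvable (O : Type*) [CommRing O] : Prop := ∃ a b : O, a ^ 2 + 1 = 4 * b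

/-- Let `F` be a field of real numbers, `O = integralClosure ℤ F` its ring of algebraic integers and
`χ` the chromatic number of the unit-distance graph of `F²`. (1) If `F` is algebraic over `ℚ`:
`χ = 2` if and only if `a ^ 2 + 1 = 4 b` is not solvable in `O`; otherwise `χ = 3` if and only if
there is a nonsplit place with `3` residues; otherwise `χ = 4` if and only if there is a nonsplit
place with `2`, `4`, `7`, `8`, `16` or `32` residues; otherwise `5 ≤ χ`. If there is a nonsplit place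
with `11` or `19` residues, then `χ ≤ 5`. (2) The lower bound `5` and the equality with the chromatic
number of the plane, also for fields which are not algebraic. (3) The quadratic fields. -/
theorem result :
    (∀ F : Subfield ℝ, (∀ x ∈ F, IsAlgebraic ℚ x) →
      ((unitDistanceGraph F).chromaticNumber = 2 ↔ ¬ Solvable (integralClosure ℤ F)) ∧
      ((unitDistanceGraph F).chromaticNumber = 3 ↔
        Solvable (integralClosure ℤ F) ∧ NonsplitPlace (integralClosure ℤ F) 3) ∧
      ((unitDistanceGraph F).chromaticNumber = 4 ↔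
        Solvable (integralClosure ℤ F) ∧ ¬ NonsplitPlace (integralClosure ℤ F) 3 ∧
          ∃ q ∈ ({2, 4, 7, 8, 16, 32} : Finset ℕ), NonsplitPlace (integralClosure ℤ F) q) ∧
      (5 ≤ (unitDistanceGraph F).chromaticNumber ↔
        Solvable (integralClosure ℤ F) ∧
          ∀ q ∈ ({2, 3, 4, 7, 8, 16, 32} : Finset ℕ), ¬ NonsplitPlace (integralClosure ℤ F) q) ∧
      (NonsplitPlace (integralClosure ℤ F) 11 ∨ NonsplitPlace (integralClosure ℤ F) 19 →
        (unitDistanceGraph F).chromaticNumber ≤ 5)) ∧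
    (∀ F : Subfield ℝ, Solvable (integralClosure ℤ F) →
      ((∀ q ∈ ({2, 3, 4, 7, 8, 16, 32} : Finset ℕ), ¬ NonsplitPlace (integralClosure ℤ F) q) →
        5 ≤ (unitDistanceGraph F).chromaticNumber) ∧
      ((∀ q ≤ 97, ¬ NonsplitPlace (integralClosure ℤ F) q) →
        (unitDistanceGraph F).chromaticNumber = (unitDistanceGraph ⊤).chromaticNumber)) ∧
    (∀ (N : ℕ) (F : Subfield ℝ), Squarefree N → 1 < N →
      F = Subfield.closure {Real.sqrt (N : ℝ)} →
      ((unitDistanceGraph F).chromaticNumber = 2 ↔ N % 4 ≠ 3) ∧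
      ((unitDistanceGraph F).chromaticNumber = 3 ↔ N % 12 = 3 ∨ N % 12 = 7) ∧
      ((unitDistanceGraph F).chromaticNumber = 4 ↔
        N % 24 = 11 ∨ (N % 24 = 23 ∧ IsSquare (N : ZMod 7))) ∧
      (5 ≤ (unitDistanceGraph F).chromaticNumber ↔ N % 24 = 23 ∧ ¬ IsSquare (N : ZMod 7)) ∧
      (N % 24 = 23 → ¬ IsSquare (N : ZMod 7) → IsSquare (N : ZMod 11) ∨ IsSquare (N : ZMod 19) →
        (unitDistanceGraph F).chromaticNumber = 5) ∧
      (N % 8 = 7 → (∀ l : ℕ, l.Prime → l % 4 = 3 → l ≤ 97 → ¬ IsSquare (N : ZMod l)) →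
        (unitDistanceGraph F).chromaticNumber = (unitDistanceGraph ⊤).chromaticNumber)) := by
  have hNS : ∀ (F : Subfield ℝ) (q : ℕ), NonsplitPlace (integralClosure ℤ F) q ↔
      Pool.Agent.MP_8b8716_co_QR.NS (integralClosure ℤ F) q := by
    intro F q
    constructor
    · rintro ⟨P, h1, h2, h3, h4⟩
      refine ⟨P, h1, h2, h3, ?_⟩
      rintro ⟨a, s, hs, b, hb, he⟩
      exact h4 ⟨a, s, b, hs, hb, he⟩
    · rintro ⟨P, h1, h2, h3, h4⟩
      refine ⟨P, h1, h2, h3, ?_⟩
      rintro ⟨a, s, b, hs, hb, he⟩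
      exact h4 ⟨a, s, hs, b, hb, he⟩
  simp only [hNS]
  refine ⟨fun F hF => Pool.Agent.MP_8b8716_co_QR.table hF, fun F hS => ⟨fun h => ?_, fun h => ?_⟩,
    fun N F hN h1 hF => Pool.Agent.MP_8b8716_co_QR.quad_table hN h1 hF⟩
  · exact (Pool.Agent.MP_8b8716_co_QR.five_le_iff F).2
      (Pool.Agent.MP_8b8716_co_QR.five_of_NS hS h)
  · exact Pool.Agent.MP_8b8716_co_QR.eq_top hS h

end Pool.Agent.Results.MP_8b8716_co.ChromaticTable
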