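import Pool.Agent.Lib.MP_8b8716_co_QP.PMain

set_option autoImplicit false

/-!
# The chromatic number of `F ^ 2` depends only on the completions of `F` at the small nonsplit places

`unitDistanceGraph F` is the graph on `F × F` in which `p` and `q` are adjacent if and only if
`(p.1 - q.1) ^ 2 + (p.2 - q.2) ^ 2 = 1`.
-/

namespace Pool.Agent.Results.MP_8b8716_co.LocalComparison

open NumberField IsDedekindDomain Pool.Agent.MP8b8716

/-- the maximal ideal `P` is split: `s (a ^ 2 + 1) = 4 b` for some `a`, `s`, `b` with `s` not in `P`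
and `b` in `P`; if `2` is not in `P`, this says that `-1` is a square modulo `P` -/
def Split {O : Type*} [CommRing O] (P : Ideal O) : Prop :=
  ∃ a s b : O, s ∉ P ∧ b ∈ P ∧ s * (a ^ 2 + 1) = 4 * b

/-- `s (a ^ 2 + 1) = 4 b` for some `a`, `s`, `b` with `s` not in `P`; this is always true if `2` is
not in `P` -/
def Unramified {O : Type*} [CommRing O] (P : Ideal O) : Prop :=
  ∃ a s b : O, s ∉ P ∧ s * (a ^ 2 + 1) = 4 * b

/-- the field `ℚ(√D)` -/
noncomputable def quadraticField (D : ℕ) : Subfield ℝ := Subfield.closure {Real.sqrt D}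

/-- (1) Let `L ⊆ F` be fields of real numbers, `L` of finite degree over `ℚ`, and let `F'` be a field
of real numbers. Suppose that every nonzero prime ideal `v` of the ring of integers of `L` is split,
or is unramified and has more than `97` residues, or that `F'` can be embedded in the completion of
`L` at `v`. Then the chromatic number of `F'²` is at most the chromatic number of `F²`.
(2) For squarefree `D`, `D' > 1`: if for `l = 2` and the primes `l ≤ 97` which are `3` modulo `4`,
`-D` or `D D'` is a square in `ℚ_l`, then the chromatic number of `ℚ(√D')²` is at most the chromatic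
number of `ℚ(√D)²`. (3) If `D D'` is a square in `ℚ_l` for all these primes, the two numbers are
equal. -/
theorem result :
    (∀ L F F' : Subfield ℝ, ∀ _ : NumberField L, L ≤ F →
      (∀ v : HeightOneSpectrum (𝓞 L), Split v.asIdeal ∨
        (Unramified v.asIdeal ∧ 97 < Nat.card (𝓞 L ⧸ v.asIdeal)) ∨
        Nonempty (F' →+* v.adicCompletion L)) →
      (unitDistanceGraph F').chromaticNumber ≤ (unitDistanceGraph F).chromaticNumber) ∧
    (∀ D D' : ℕ, Squarefree D → Squarefree D' → 1 < D → 1 < D' →
      (∀ l : ℕ, ∀ _ : Fact l.Prime, l = 2 ∨ l % 4 = 3 → l ≤ 97 →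
        IsSquare (-(D : ℚ_[l])) ∨ IsSquare ((D * D' : ℕ) : ℚ_[l])) →
      (unitDistanceGraph (quadraticField D')).chromaticNumber ≤
        (unitDistanceGraph (quadraticField D)).chromaticNumber) ∧
    (∀ D D' : ℕ, Squarefree D → Squarefree D' → 1 < D → 1 < D' →
      (∀ l : ℕ, ∀ _ : Fact l.Prime, l = 2 ∨ l % 4 = 3 → l ≤ 97 →
        IsSquare ((D * D' : ℕ) : ℚ_[l])) →
      (unitDistanceGraph (quadraticField D')).chromaticNumber =
        (unitDistanceGraph (quadraticField D)).chromaticNumber) := by
  have hle : ∀ F F' : Subfield ℝ,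
      (∀ k : ℕ, (unitDistanceGraph F).Colorable k → (unitDistanceGraph F').Colorable k) →
      (unitDistanceGraph F').chromaticNumber ≤ (unitDistanceGraph F).chromaticNumber := by
    intro F F' h
    have h1 : ∀ n : ℕ∞, (unitDistanceGraph F).chromaticNumber ≤ n →
        (unitDistanceGraph F').chromaticNumber ≤ n := by
      intro n
      induction n using ENat.recTopCoe with
      | top => simp
      | coe n =>
        rw [SimpleGraph.chromaticNumber_le_iff_colorable,
          SimpleGraph.chromaticNumber_le_iff_colorable]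
        exact h n
    exact h1 _ le_rfl
  have hq : ∀ D D' : ℕ, Squarefree D → Squarefree D' → 1 < D → 1 < D' →
      (∀ l : ℕ, ∀ _ : Fact l.Prime, l = 2 ∨ l % 4 = 3 → l ≤ 97 →
        IsSquare (-(D : ℚ_[l])) ∨ IsSquare ((D * D' : ℕ) : ℚ_[l])) →
      (unitDistanceGraph (quadraticField D')).chromaticNumber ≤
        (unitDistanceGraph (quadraticField D)).chromaticNumber := fun D D' hD hD' _ h1' h =>
    hle _ _ fun _ hk => Pool.Agent.MP_8b8716_co_QP.pquad hD hD' h1' h hk
  refine ⟨fun L F F' hL hLF h => hle _ _ fun k hk => ?_, hq, fun D D' hD hD' h1 h1' h => ?_⟩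
  · refine Pool.Agent.MP_8b8716_co_QP.pmain hLF (fun v => ?_) hk
    rcases h v with ⟨a, s, b, hs, hb, he⟩ | ⟨⟨a, s, b, hs, he⟩, hc⟩ | h1
    · exact Or.inl ⟨a, s, hs, b, hb, he⟩
    · exact Or.inr (Or.inl ⟨⟨a, s, b, hs, he⟩, hc⟩)
    · exact Or.inr (Or.inr h1)
  · refine le_antisymm (hq D D' hD hD' h1 h1' fun l hl h2 h3 => Or.inr (h l hl h2 h3))
      (hq D' D hD' hD h1' h1 fun l hl h2 h3 => Or.inr ?_)
    rw [mul_comm]
    exact h l hl h2 h3

end Pool.Agent.Results.MP_8b8716_co.LocalComparison
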