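import Pool.Agent.Lib.MP_8b8716_co_QG.GMain
import Pool.Agent.Lib.MP_8b8716_co_FALC.Main

set_option autoImplicit false

/-!
# The chromatic number of `F ^ 2` for fields without small nonsplit places

`unitDistanceGraph F` is the graph on `F × F` in which `p` and `q` are adjacent if and only if
`(p.1 - q.1) ^ 2 + (p.2 - q.2) ^ 2 = 1`; `unitDistanceGraph ⊤` is the unit-distance graph of the
plane over all real numbers.
-/

namespace Pool.Agent.Results.MP_8b8716_co.NonsplitPlaces

open MeasureTheory Pool.Agent.MP8b8716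

/-- the plane has a colouring with `k` colours such that points at distance one have different
colours and all colour classes are Lebesgue measurable -/
def MeasColorable (k : ℕ) : Prop :=
  ∃ κ : EuclideanSpace ℝ (Fin 2) → Fin k,
    (∀ i, NullMeasurableSet (κ ⁻¹' {i}) volume) ∧ ∀ p q, dist p q = 1 → κ p ≠ κ q

/-- the maximal ideal `P` is split: `s (a ^ 2 + 1) = 4 b` for some `a`, `s`, `b` with `s` not in `P`
and `b` in `P`; if `2` is not in `P`, this says that `-1` is a square modulo `P` -/
def Split {O : Type*} [CommRing O] (P : Ideal O) : Prop :=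
  ∃ a s b : O, s ∉ P ∧ b ∈ P ∧ s * (a ^ 2 + 1) = 4 * b

/-- `a ^ 2 + 1 = 4 b` is solvable in the ring `O`, and every maximal ideal of `O` with at most `B`
residues is split -/
def NonsplitAbove (B : ℕ) (O : Type*) [CommRing O] : Prop :=
  (∃ a b : O, a ^ 2 + 1 = 4 * b) ∧
    ∀ P : Ideal O, P.IsMaximal → Finite (O ⧸ P) → Nat.card (O ⧸ P) ≤ B → Split P

/-- Let `F` be a field of real numbers, `O = integralClosure ℤ F` its ring of algebraic integers.
(1) If `a ^ 2 + 1 = 4 b` is solvable in `O` and all maximal ideals of `O` with at most `97` residues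
are split, then the chromatic numbers of `F²` and of the plane and the measurable chromatic number
of the plane are equal and at least `5`. (2) For every `k`, if this holds with
`4 (k - 1) ^ 2 - 3` instead of `97`, then `F²` can be coloured with `k` colours if and only if the
plane has a measurable colouring with `k` colours; for `k = 4` (with `33` instead of `97`) the
chromatic number of `F²` is at least `5`. (3) If `√D ∈ F`, `D` is `7` modulo `8` and `-D` is a
nonzero square modulo all primes `l ≤ B`, `l` equal to `3` modulo `4`, then the condition is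
satisfied with `B`; for example, for `D = 635087` and `B = 97`, and for `D = 2351` and `B = 33`. -/
theorem result (F : Subfield ℝ) :
    (NonsplitAbove 97 (integralClosure ℤ F) →
      5 ≤ (unitDistanceGraph F).chromaticNumber ∧
      (unitDistanceGraph F).chromaticNumber = (unitDistanceGraph ⊤).chromaticNumber ∧
      ∀ k : ℕ, (unitDistanceGraph F).chromaticNumber ≤ k ↔ MeasColorable k) ∧
    (∀ k : ℕ, NonsplitAbove (4 * (k - 1) ^ 2 - 3) (integralClosure ℤ F) →
      ((unitDistanceGraph F).chromaticNumber ≤ k ↔ MeasColorable k)) ∧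
    (NonsplitAbove 33 (integralClosure ℤ F) → 5 ≤ (unitDistanceGraph F).chromaticNumber) ∧
    (∀ D B : ℕ, D % 8 = 7 → (∀ l : ℕ, l.Prime → l % 4 = 3 → l ≤ B →
      ∃ b : ℕ, l ∣ b ^ 2 + D ∧ ¬ l ∣ b) → Real.sqrt D ∈ F →
      NonsplitAbove B (integralClosure ℤ F)) ∧
    (Real.sqrt 635087 ∈ F → NonsplitAbove 97 (integralClosure ℤ F)) ∧
    (Real.sqrt 2351 ∈ F → NonsplitAbove 33 (integralClosure ℤ F)) := by
  have hcond : ∀ B : ℕ, NonsplitAbove B (integralClosure ℤ F) ↔
      Pool.Agent.MP_8b8716_co_QG.Cond {q | B < q} (integralClosure ℤ F) := by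
    intro B
    constructor
    · rintro ⟨h1, h2⟩
      refine ⟨h1, fun P hP hf hc => ?_⟩
      obtain ⟨a, s, b, h3, h4, h5⟩ := h2 P hP hf (not_lt.1 hc)
      exact ⟨a, s, h3, b, h4, h5⟩
    · rintro ⟨h1, h2⟩
      refine ⟨h1, fun P hP hf hc => ?_⟩
      obtain ⟨a, s, h3, b, h4, h5⟩ := h2 P hP hf (not_lt.2 hc)
      exact ⟨a, s, b, h3, h4, h5⟩
  have hmono : ∀ B B' : ℕ, B ≤ B' → NonsplitAbove B' (integralClosure ℤ F) →
      NonsplitAbove B (integralClosure ℤ F) := fun B B' h h' =>
    ⟨h'.1, fun P hP hf hc => h'.2 P hP hf (hc.trans h)⟩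
  have hk : ∀ k : ℕ, NonsplitAbove (4 * (k - 1) ^ 2 - 3) (integralClosure ℤ F) →
      ((unitDistanceGraph F).chromaticNumber ≤ k ↔ MeasColorable k) := by
    intro k h
    rw [SimpleGraph.chromaticNumber_le_iff_colorable]
    refine ⟨fun h1 => Pool.Agent.MP_8b8716_co_QG.gmain ((hcond _).1 h) h1, fun h1 => ?_⟩
    exact Pool.Agent.MP_8b8716_co_QF.colorable_of_top F
      (Pool.Agent.MP_8b8716_co_QF.colorable_top_of_meas h1)
  have h5 : NonsplitAbove 33 (integralClosure ℤ F) →
      5 ≤ (unitDistanceGraph F).chromaticNumber := by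
    intro h
    by_contra hcon
    have h1 : (unitDistanceGraph F).chromaticNumber ≤ (4 : ℕ) := by
      have h2 := not_le.1 hcon
      exact Order.le_of_lt_add_one (by exact_mod_cast h2)
    have h3 := (hk 4 h).1 h1
    obtain ⟨κ, hm, hκ⟩ := h3
    set e := Complex.orthonormalBasisOneI.repr
    refine Pool.Agent.MP8b8716F.falconer ⟨fun z => κ (e z), fun i => ?_, fun z w hzw =>
      hκ _ _ ?_⟩
    · exact (hm i).preimage e.measurePreserving.quasiMeasurePreserving
    · rw [LinearIsometryEquiv.dist_map, dist_eq_norm]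
      exact hzw
  have hD : ∀ D B : ℕ, D % 8 = 7 → (∀ l : ℕ, l.Prime → l % 4 = 3 → l ≤ B →
      ∃ b : ℕ, l ∣ b ^ 2 + D ∧ ¬ l ∣ b) → Real.sqrt D ∈ F →
      NonsplitAbove B (integralClosure ℤ F) := fun D B h8 hl hD =>
    (hcond B).2 (Pool.Agent.MP_8b8716_co_QG.cond_of_sqrt hD h8 hl)
  refine ⟨fun h => ⟨h5 (hmono 33 97 (by norm_num) h), ?_⟩, hk, h5, hD, fun h => ?_, fun h => ?_⟩
  · -- at most six colours, or at least seven colours
    have h6 : ∀ k : ℕ, (unitDistanceGraph F).chromaticNumber ≤ k ↔ MeasColorable k := by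
      intro k
      rcases Nat.lt_or_ge k 7 with h7 | h7
      · refine hk k (hmono _ 97 ?_ h)
        interval_cases k <;> norm_num
      · have h8 : MeasColorable k := by
          obtain ⟨κ, h1, h2⟩ := Pool.Agent.MP_8b8716_co_QF.seven h7
          exact Pool.Agent.MP_8b8716_co_QF.measColorable_of_complex
            ⟨κ, fun i => (h1 (measurableSet_singleton i)).nullMeasurableSet, h2⟩
        refine ⟨fun _ => h8, fun _ => ?_⟩
        rw [SimpleGraph.chromaticNumber_le_iff_colorable]
        exact Pool.Agent.MP_8b8716_co_QF.colorable_of_top F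
          (Pool.Agent.MP_8b8716_co_QF.colorable_top_of_meas h8)
    refine ⟨?_, h6⟩
    have h9 : ∀ k : ℕ, (unitDistanceGraph F).Colorable k ↔ (unitDistanceGraph ⊤).Colorable k := by
      intro k
      refine ⟨fun hc => ?_, Pool.Agent.MP_8b8716_co_QF.colorable_of_top F⟩
      rw [← SimpleGraph.chromaticNumber_le_iff_colorable] at hc
      exact Pool.Agent.MP_8b8716_co_QF.colorable_top_of_meas ((h6 k).1 hc)
    have h10 : ∀ n : ℕ∞, (unitDistanceGraph F).chromaticNumber ≤ n ↔
        (unitDistanceGraph ⊤).chromaticNumber ≤ n := by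
      intro n
      induction n using ENat.recTopCoe with
      | top => simp
      | coe n =>
        rw [SimpleGraph.chromaticNumber_le_iff_colorable,
          SimpleGraph.chromaticNumber_le_iff_colorable]
        exact h9 n
    exact le_antisymm ((h10 _).2 le_rfl) ((h10 _).1 le_rfl)
  · refine hD 635087 97 (by norm_num) ?_ (by exact_mod_cast h)
    intro l hl h3 hl97
    have h11 : ∀ l ≤ 97, l % 4 = 3 → l.Prime → ∃ b < 97, l ∣ b ^ 2 + 635087 ∧ ¬ l ∣ b := by
      decide +kernel
    obtain ⟨b, -, hb⟩ := h11 l hl97 h3 hl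
    exact ⟨b, hb⟩
  · refine hD 2351 33 (by norm_num) ?_ (by exact_mod_cast h)
    intro l hl h3 hl33
    have h11 : ∀ l ≤ 33, l % 4 = 3 → l.Prime → ∃ b < 33, l ∣ b ^ 2 + 2351 ∧ ¬ l ∣ b := by
      decide +kernel
    obtain ⟨b, -, hb⟩ := h11 l hl33 h3 hl
    exact ⟨b, hb⟩

end Pool.Agent.Results.MP_8b8716_co.NonsplitPlaces
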